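import Pool.Agent.H30.SplC

set_option autoImplicit false

namespace Pool.Agent.Results.MP_a1e9e0_gt.Example

open Set Filter Topology Cardinal Pool.Agent.H30.Spl

/-- For every closed `F` and every family of open sets covering `F`, decomposed into subfamilies
indexed by `I`, there are countable subfamilies the closures of whose unions cover `F`. -/
def Piecewise (I : Type) (X : Type) [TopologicalSpace X] : Prop :=
  ∀ F : Set X, IsClosed F → ∀ 𝒰 : I → Set (Set X), (∀ i, ∀ U ∈ 𝒰 i, IsOpen U) →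
    F ⊆ ⋃₀ (⋃ i, 𝒰 i) → ∃ 𝒱 : I → Set (Set X), (∀ i, 𝒱 i ⊆ 𝒰 i ∧ (𝒱 i).Countable) ∧
      F ⊆ ⋃ i, closure (⋃₀ 𝒱 i)

def X : Type := (W1 → W1) × W1

def N (x : X) (D : Finset W1) (a : W1) : Set X :=
  {y | ∀ j ∈ D, (x.2 ≤ j → y.2 ≤ j ∧ y.1 j = x.1 j) ∧ (y.1 j = x.1 j ∨ a < y.1 j)}

lemma N_mono (x : X) {D D' : Finset W1} {a a' : W1} (h : D ⊆ D') (h' : a ≤ a') :
    N x D' a' ⊆ N x D a := fun _ hy j hj =>
  ⟨(hy j (h hj)).1, (hy j (h hj)).2.imp id h'.trans_lt⟩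

instance : TopologicalSpace X where
  IsOpen W := ∀ x ∈ W, ∃ D a, N x D a ⊆ W
  isOpen_univ := fun _ _ => ⟨∅, Classical.arbitrary _, subset_univ _⟩
  isOpen_inter := fun _ _ h h' x hx => by
    classical
    obtain ⟨D, a, h1⟩ := h x hx.1
    obtain ⟨D', a', h2⟩ := h' x hx.2
    exact ⟨D ∪ D', max a a', subset_inter
      ((N_mono x Finset.subset_union_left (le_max_left _ _)).trans h1)
      ((N_mono x Finset.subset_union_right (le_max_right _ _)).trans h2)⟩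
  isOpen_sUnion := fun _ h x ⟨U, h1, h2⟩ =>
    let ⟨D, a, h3⟩ := h U h1 x h2; ⟨D, a, h3.trans (subset_sUnion_of_mem h1)⟩

def U (j v : W1) : Set X := {y | y.2 ≤ j ∧ y.1 j = v}

lemma U_open (j v : W1) : IsOpen (U j v) := fun _ hx => ⟨{j}, j, fun _ hy =>
  let h := (hy j (Finset.mem_singleton_self j)).1 hx.1; ⟨h.1, h.2.trans hx.2⟩⟩

lemma G_open (j a : W1) : IsOpen {y : X | a < y.1 j} := fun _ hx => ⟨{j}, a, fun _ hy =>
  (hy j (Finset.mem_singleton_self j)).2.elim (fun h => lt_of_lt_of_eq hx h.symm) id⟩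

lemma mem_cl {x : X} {W : Set X} (h : ∀ D a, (N x D a ∩ W).Nonempty) : x ∈ closure W :=
  mem_closure_iff.2 fun _ hO hx => let ⟨D, a, h1⟩ := hO x hx
    (h D a).mono (inter_subset_inter_left _ h1)

lemma t0 : T0Space X := (t0Space_iff_inseparable X).2 fun x y h => by
  have h1 := inseparable_iff_forall_isOpen.1 h
  refine Prod.ext (funext fun j => le_antisymm (not_lt.1 fun h2 => ?_) (not_lt.1 fun h2 => ?_))
    (le_antisymm ((h1 _ (U_open y.2 (y.1 y.2))).2 ⟨le_rfl, rfl⟩).1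
      ((h1 _ (U_open x.2 (x.1 x.2))).1 ⟨le_rfl, rfl⟩).1)
  · exact lt_irrefl (y.1 j) ((h1 _ (G_open j (y.1 j))).1 h2)
  · exact lt_irrefl (x.1 j) ((h1 _ (G_open j (x.1 j))).2 h2)

lemma not_pw : ¬ Piecewise W1 X := fun h => by
  obtain ⟨𝒱, h1, h2⟩ := h univ isClosed_univ (fun i => range (U i)) (by
    rintro i _ ⟨v, rfl⟩; exact U_open i v) fun x _ =>
      ⟨U x.2 (x.1 x.2), mem_iUnion.2 ⟨x.2, _, rfl⟩, le_rfl, rfl⟩
  choose! v hv using fun i W (hW : W ∈ 𝒱 i) => (h1 i).1 hW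
  choose a ha using fun i => W1_bdd ((h1 i).2.image (v i))
  choose f hf using fun i => W1_bdd (countable_singleton (a i))
  obtain ⟨i, hi⟩ := mem_iUnion.1 (h2 (mem_univ ((f, Classical.arbitrary _) : X)))
  obtain ⟨y, h3, W, h4, h5⟩ := mem_closure_iff.1 hi _ (G_open i (a i)) (hf i _ rfl)
  rw [← hv i W h4] at h5
  exact (ha i _ ⟨W, h4, rfl⟩).not_gt (lt_of_lt_of_eq h3 h5.2)

lemma pw : Piecewise ℕ X := by
  classical
  intro F hF 𝒰 h1 h2
  let Q : ℕ → Finset (W1 × W1) → W1 → Set X × X × Finset W1 × W1 → Prop := fun n s ξ w =>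
    w.1 ∈ 𝒰 n ∧ N w.2.1 w.2.2.1 w.2.2.2 ⊆ w.1 ∧ ξ < w.2.1.2 ∧
      ∀ p ∈ s, p.2 = w.2.1.1 p.1 ∨ w.2.2.2 < p.2
  have : Nonempty X := ⟨(id, Classical.arbitrary _)⟩
  choose! w hw using fun n s ξ (h : ∃ w, Q n s ξ w) => h
  let c : Finset W1 → Set W1 := fun t => ⋃ n, ⋃ s ∈ (t ×ˢ t).powerset, ⋃ ξ ∈ t,
    insert (w n s ξ).2.2.2 (w n s ξ).2.2.1
  obtain ⟨o, -, ho⟩ := (wellFounded_lt (α := W1)).has_min univ univ_nonempty
  have ho' : ∀ j, o ≤ j := fun j => not_lt.1 (ho j trivial)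
  obtain ⟨δ, h3, h4⟩ := club (c := c) isRegular_aleph_one aleph0_lt_aleph_one mk_W1.ge
    (fun i => (Cardinal.countable_iff_lt_aleph_one _).1 (W1_Iio i))
    (fun t => (Cardinal.countable_iff_lt_aleph_one _).1 (countable_iUnion fun n =>
      (Finset.countable_toSet _).biUnion fun s _ => (Finset.countable_toSet _).biUnion fun ξ _ =>
        (Finset.countable_toSet _).insert _)) o
  refine ⟨fun n => 𝒰 n ∩ image2 (fun s ξ => (w n s ξ).1)
    {s : Finset (W1 × W1) | (s : Set (W1 × W1)) ⊆ Iio δ ×ˢ Iio δ} (Iio δ), fun n =>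
    ⟨inter_subset_left, ((cnt_finsets ((W1_Iio δ).prod (W1_Iio δ))).image2 (W1_Iio δ) _).mono
      inter_subset_right⟩, fun x hx => ?_⟩
  have h5 : ((x.1, max x.2 δ) : X) ∈ F := hF.closure_subset (mem_cl fun D a =>
    ⟨x, fun j _ => ⟨fun h => ⟨(le_max_left _ _).trans h, rfl⟩, Or.inl rfl⟩, hx⟩)
  obtain ⟨V, h6, h7⟩ := h2 h5
  obtain ⟨n, hn⟩ := mem_iUnion.1 h6
  obtain ⟨D0, a0, h8⟩ := h1 n V hn _ h7
  refine mem_iUnion.2 ⟨n, mem_cl fun D a => ?_⟩
  obtain ⟨ξ, h9, h10⟩ := (insert o (D.filter (· < δ))).exists_max_image id (Finset.insert_nonempty _ _)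
  have hξ : ξ < δ := by
    rcases Finset.mem_insert.1 h9 with rfl | h
    exacts [h3, (Finset.mem_filter.1 h).2]
  let s := (D.filter fun j => j < δ ∧ x.1 j < δ).image fun j => (j, x.1 j)
  have hs : (s : Set (W1 × W1)) ⊆ Iio δ ×ˢ Iio δ := fun p hp => by
    obtain ⟨j, hj, rfl⟩ := Finset.mem_image.1 hp
    exact (Finset.mem_filter.1 hj).2
  obtain ⟨q1, q2, q3, q4⟩ := hw n s ξ ⟨(V, (x.1, max x.2 δ), D0, a0), hn, h8,
    hξ.trans_le (le_max_right _ _), fun p hp => by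
      obtain ⟨j, -, rfl⟩ := Finset.mem_image.1 hp
      exact Or.inl rfl⟩
  have h11 : insert (w n s ξ).2.2.2 ((w n s ξ).2.2.1 : Set W1) ⊆ Iio δ := by
    refine Subset.trans (fun z hz => ?_) (h4 (insert ξ (s.image Prod.fst ∪ s.image Prod.snd))
      fun z hz => ?_)
    · refine mem_iUnion.2 ⟨n, mem_biUnion (x := s) (Finset.mem_powerset.2 fun p hp => ?_)
        (mem_biUnion (Finset.mem_insert_self _ _) hz)⟩
      exact Finset.mem_product.2 ⟨Finset.mem_insert_of_mem (Finset.mem_union_left _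
        (Finset.mem_image_of_mem _ hp)), Finset.mem_insert_of_mem (Finset.mem_union_right _
        (Finset.mem_image_of_mem _ hp))⟩
    · rcases Finset.mem_insert.1 hz with rfl | hz
      · exact hξ
      rcases Finset.mem_union.1 hz with hz | hz <;> obtain ⟨p, hp, rfl⟩ := Finset.mem_image.1 hz
      exacts [(hs hp).1, (hs hp).2]
  refine ⟨(fun j => if j ∈ D then x.1 j else (w n s ξ).2.1.1 j, o),
    fun j hj => ⟨fun _ => ⟨ho' j, if_pos hj⟩, Or.inl (if_pos hj)⟩,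
    _, ⟨q1, mem_image2_of_mem hs hξ⟩, q2 fun j hj => ?_⟩
  by_cases h : j ∈ D
  swap
  · exact ⟨fun _ => ⟨ho' j, if_neg h⟩, Or.inl (if_neg h)⟩
  have hj' : j < δ := h11 (mem_insert_of_mem _ hj)
  refine ⟨fun h' => absurd (q3.trans_le h') (not_lt.2
    (h10 j (Finset.mem_insert_of_mem (Finset.mem_filter.2 ⟨h, hj'⟩)))), ?_⟩
  simp only [if_pos h]
  rcases lt_or_ge (x.1 j) δ with h' | h'
  · exact q4 _ (Finset.mem_image_of_mem _ (Finset.mem_filter.2 ⟨h, hj', h'⟩))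
  · exact Or.inr (lt_of_lt_of_le (h11 (mem_insert _ _)) h')

/-- A strict quasi-Lindelöf `T₀` space whose piecewise weak Lindelöf degree for closed sets is
uncountable. -/
theorem result : ∃ (X : Type) (_ : TopologicalSpace X),
    T0Space X ∧ Piecewise ℕ X ∧ ∃ I : Type, ¬ Piecewise I X :=
  ⟨X, inferInstance, t0, pw, W1, not_pw⟩

end Pool.Agent.Results.MP_a1e9e0_gt.Example
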